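import Pool.Agent.Run7.h641.AP.Fin
import Pool.Agent.Run7.h641.AP.FA
import Pool.Agent.Run7.h641.AP.FB
import Pool.Agent.Run7.h641.AP.FC
import Pool.Agent.Run7.h160.AP.IDX
import Pool.Agent.Run7.h641.AP.COMM
import Pool.Agent.Run7.h641.AP.W
import Pool.Agent.Run7.h921.AP.SC
import Pool.Agent.Run7.h379.AP.DG

/-!
# The Galois orbits of almost all special points of a product of modular curves are equidistributed

Let `X` be a product of `n ≥ 1` modular curves of congruence subgroups, with its canonical model over the number field `F`. There
is a set `Z` of special points such that:

1. `Z` has density zero, uniformly, among the special points with given discriminants `D 1, …, D n` of the coordinates: for every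
   `ε > 0` there is `R` such that for all `D 1, …, D n` with `|D j| ≥ R` for all `j` at most the part `ε` of the special points with these
   discriminants is in `Z`;
2. the Galois orbits of every sequence of special points outside of `Z`, such that the discriminants of all
   coordinates tend to infinity, are equidistributed. (No further hypothesis: in particular for all `D j` equal.)
3. The Galois orbits of every strict sequence (each proper special subvariety contains only finitely many of its points) of special
   points outside of `Z` are equidistributed.

No hypothesis on the joint distribution is made. Published facts about the single modular curves are assumed: the structure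
`Model` of helper762 (the Galois action on the CM points, the reciprocity law, genus theory, equidistribution for subgroups of small
index: Shimura; Gauss; Duke, Zhang, Harcos and Michel, Michel and Venkatesh), and `Twisted`: the sums of a test function over a
Galois orbit against a nontrivial character of the class group are small, uniformly in the character (Duke 1988, Duke, Friedlander
and Iwaniec, Zhang 2005, Harcos and Michel 2006, Michel and Venkatesh 2010: subconvexity).

Idea of the proof. The second moment, over all special points `x` with discriminants `D 1, …, D n`, of the difference between the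
mean over the Galois orbit of `x` of a tensor product of functions and its integral is bounded by a sum over the elements of the
Galois group of products of correlations, one for each curve. All but one of the correlations are bounded trivially, and the mean of
the absolute values of the remaining one is small by Fourier analysis on the abelian group by which the elements of the Galois group
which fix the quadratic field act, since the image of the joint Galois group in each factor has bounded index.
-/

set_option autoImplicit false

open MeasureTheory Filter Topology
open scoped UpperHalfPlane MatrixGroups ENNReal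
open Pool.Agent.Run7.h762.EQ Pool.Agent.Run7.h641.AP

namespace Pool.Agent.Results.MP_ad7a55_nt.AlmostAllSpecialPoints

theorem result {Qb : Type} [Field Qb] [Algebra ℚ Qb] [IsAlgClosure ℚ Qb] {n : ℕ} (hn : 0 < n) (Γ : Fin n → Subgroup SL(2, ℤ))
    (_hΓ : ∀ j, CongruenceSubgroup.IsCongruenceSubgroup (Γ j)) (F : IntermediateField ℚ Qb) [NumberField F]
    (m : ∀ j, Measure (Curve (Γ j))) (hm : ∀ j, IsHyperbolic (m j)) (C : ∀ j, Model (Γ j) F (m j)) (hC : ∀ j, Twisted (C j)) :
    ∃ Z : Set (∀ j, CMPoint (Γ j)),
      -- 1. the set `Z` has density zero among the special points with given discriminants
      (∀ ε : ℝ, 0 < ε → ∃ R : ℝ, ∀ D : Fin n → ℤ, (∀ j, R ≤ |(D j : ℝ)|) →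
        ({x : ∀ j, CMPoint (Γ j) | x ∈ Z ∧ ∀ j, disc (x j) = D j}.ncard : ℝ) ≤
          ε * ({x : ∀ j, CMPoint (Γ j) | ∀ j, disc (x j) = D j}.ncard : ℝ)) ∧
      -- 2. all sequences outside of `Z` with discriminants which tend to infinity
      (∀ x : ℕ → ∀ j, CMPoint (Γ j), (∀ᶠ i in atTop, x i ∉ Z) → (∀ j, Tendsto (fun i => |(disc (x i j) : ℝ)|) atTop atTop) →
        Equidistributed C x (fun _ => F.fixingSubgroup)) ∧
      -- 3. all strict sequences outside of `Z`
      ∀ x : ℕ → ∀ j, CMPoint (Γ j), (∀ᶠ i in atTop, x i ∉ Z) → StrictSeq x →
        Equidistributed C x (fun _ => F.fixingSubgroup) :=
  Fin'.main2 FA.t_FA FB.t_FB FC.t_FC COMM.t_COMM Pool.Agent.Run7.h160.AP.t_IDX Pool.Agent.Run7.h921.AP.t_ORB W.t_W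
    Pool.Agent.Run7.h921.AP.t_SC DG.t_DG hn Γ F m hm C hC

end Pool.Agent.Results.MP_ad7a55_nt.AlmostAllSpecialPoints
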