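import Pool.Agent.Run7.h762.EQ.J8

/-!
# Equidistribution of small suborbits of special points with pairwise distinct CM fields

Let `X` be a product of `n` modular curves of congruence subgroups, with its canonical model over the number field `F`. There is
`δ > 0`, which depends only on `X`, such that the following is true: if `x i` is a strict sequence of special points of `X` (each
proper special subvariety contains only finitely many of them), the CM fields of the coordinates of `x i` are pairwise distinct for
all large `i`, and `M i` are subgroups of `Gal(Qb/F)` of index at most `|D| ^ δ` for the discriminants `D` of all coordinates of `x i`,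
then the orbits of the `x i` under the `M i` are equidistributed in `X`. For `M i = Gal(Qb/F)`, whose index does not depend on `i`, this is
the assertion of Q1 for these sequences.

Only published facts about the single modular curves are assumed (the structure `Model`); in particular the theorem of Zhang,
Harcos, Michel and Venkatesh on small suborbits for one curve, whose analogue for products it is.

Idea of the proof. Let `σ` be an element of the Galois group of a fixed number field which fixes all the CM fields of the
coordinates of `x`. For `τ` in the absolute Galois group the conjugate `τ σ τ⁻¹` acts on the coordinate `x_j` as `σ` or as `σ⁻¹`, according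
to the action of `τ` on the CM field of `x_j`. So for coordinates `x_j`, `x_l` with different CM fields there is `τ` such that `σ (τ σ τ⁻¹)`
acts on one of them as `σ ^ 2` and on the other one as the identity. By iteration the `2 ^ n`-th powers act independently on the blocks
of coordinates with the same CM field, and by genus theory the powers have small index for a single curve.
So the orbit is divided into products of small suborbits of the single curves.
-/

set_option autoImplicit false

open MeasureTheory Filter Topology
open scoped UpperHalfPlane MatrixGroups ENNReal
open Pool.Agent.Run7.h762.EQ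

namespace Pool.Agent.Results.MP_ad7a55_nt.DistinctFields

theorem result {Qb : Type} [Field Qb] [Algebra ℚ Qb] [IsAlgClosure ℚ Qb] {n : ℕ} (Γ : Fin n → Subgroup SL(2, ℤ))
    (_hΓ : ∀ j, CongruenceSubgroup.IsCongruenceSubgroup (Γ j)) (F : IntermediateField ℚ Qb) [NumberField F]
    (m : ∀ j, Measure (Curve (Γ j))) (hm : ∀ j, IsHyperbolic (m j)) (C : ∀ j, Model (Γ j) F (m j)) :
    ∃ δ : ℝ, 0 < δ ∧ ∀ (x : ℕ → ∀ j, CMPoint (Γ j)) (M : ℕ → Subgroup (Qb ≃ₐ[ℚ] Qb)), StrictSeq x →
      (∀ᶠ i in atTop, ∀ j l, j ≠ l → quadField Qb (disc (x i j)) ≠ quadField Qb (disc (x i l))) →
      (∀ i, M i ≤ F.fixingSubgroup) → (∀ i, (M i).index ≠ 0) →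
      (∀ᶠ i in atTop, ∀ j, ((M i).index : ℝ) ≤ |(disc (x i j) : ℝ)| ^ δ) → Equidistributed C x M := by
  obtain ⟨δ, hδ, h⟩ := core (index_of_numberField F) (fun j => (hm j).1) C
  exact ⟨δ, hδ, fun x M hx hdist hMF hM0 hM f hf hfs =>
    h x M (fun j R => hx.disc_tendsto (fun j => (C j).finite_disc) j R) hdist hMF hM0 hM f hf hfs⟩

end Pool.Agent.Results.MP_ad7a55_nt.DistinctFields
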