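import Pool.Agent.Run7.h762.EQ.L7

/-!
# Equidistribution of Galois orbits of special points: the case of equal CM fields and discriminants with a large common part

Let `X` be a product of `n` modular curves of congruence subgroups, with its canonical model over the number field `F`, and let
`x i` be a strict sequence of special points of `X` (each proper special subvariety contains only finitely many of them). Let `D j` be
the discriminants of the coordinates of `x i`.

There is `δ > 0`, which depends only on `X`, such that the Galois orbits of the `x i` are equidistributed if, for all large `i`, each two
coordinates of `x i` have different CM fields or discriminants with `gcd (D j, D l) ≤ max (|D j|, |D l|) ^ δ` (for instance all CM fields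
are different, or the discriminants are of very different size, or the CM field is fixed and the conductors are coprime).

In general the Galois orbits are equidistributed if this is so for the sets `J` of at least two coordinates such that for
infinitely many `i` the set `J` is the set of all the coordinates of `x i` with one CM field, and the inequality is not satisfied for some
two coordinates in `J`: it is enough to know the equidistribution of the orbits of powers (`PowEq`) for strict sequences in `∏ j ∈ J, Y j`
all of whose points are of this kind. The conclusion is also true for the orbits of powers, so that nothing is lost. (If there is no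
such `J`, nothing is assumed: this is the first statement.) So the open case of Q1 is the one of coordinates with the same CM field
and a large common part of the discriminants.

Published facts about the single modular curves are assumed (the structure `Model`), the invariance of the isogeny degrees under
the Galois group (`HeckeRational`), and class field theory for the fields generated by CM points (`RingClass`).

Idea of the proof. Let `σ` be an element of the Galois group of a fixed number field which fixes all the CM fields of the
coordinates of `x`. For `τ` in the absolute Galois group the conjugate `τ σ τ⁻¹` acts on the coordinate `x_j` as `σ` or as `σ⁻¹`, according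
to the action of `τ` on the CM field of `x_j`. So for coordinates `x_j`, `x_l` with different CM fields there is `τ` such that `σ (τ σ τ⁻¹)`
acts on one of them as `σ ^ 2` and on the other one as the identity. By iteration the `2 ^ n`-th powers act independently on the blocks
of coordinates with the same CM field, and by genus theory the powers have small index for a single curve. In a block one
integrates over the coordinates one after the other, starting with the largest discriminant: the powers of the elements which
fix the coordinates with smaller discriminants have small index for this coordinate, by class field theory.
-/

set_option autoImplicit false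

open MeasureTheory Filter Topology
open scoped UpperHalfPlane MatrixGroups ENNReal
open Pool.Agent.Run7.h762.EQ

namespace Pool.Agent.Results.MP_ad7a55_nt.SameFieldReduction

theorem result {Qb : Type} [Field Qb] [Algebra ℚ Qb] [IsAlgClosure ℚ Qb] {n : ℕ} (Γ : Fin n → Subgroup SL(2, ℤ))
    (hΓ : ∀ j, CongruenceSubgroup.IsCongruenceSubgroup (Γ j)) (F : IntermediateField ℚ Qb) [NumberField F]
    (m : ∀ j, Measure (Curve (Γ j))) (hm : ∀ j, IsHyperbolic (m j)) (C : ∀ j, Model (Γ j) F (m j))
    (hC : HeckeRational C) (hring : RingClass C) :
    ∃ δ : ℝ, 0 < δ ∧ ∀ x : ℕ → ∀ j, CMPoint (Γ j), StrictSeq x →
      -- the only hypothesis: the sets of all coordinates with one CM field, two of which have discriminants with a large common part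
      (∀ J : Finset (Fin n), 2 ≤ J.card → (∃ᶠ i in atTop, IsClass Qb J (x i) ∧ ¬ SmallGcd δ (fun j : J => x i j)) →
        PowEq (fun j : J => C j) (fun y => SameField Qb y ∧ ¬ SmallGcd δ y)) →
      -- the Galois orbits are equidistributed, and also the orbits of powers
      Equidistributed C x (fun _ => F.fixingSubgroup) ∧
      ∀ (k : ℕ) (E : Subgroup (Qb ≃ₐ[ℚ] Qb)), E.Normal → E.index ≠ 0 → ∀ M : ℕ → Subgroup (Qb ≃ₐ[ℚ] Qb),
        (∀ i, M i ≤ F.fixingSubgroup) →
        (∀ i, ∀ b ∈ E, (∀ j, b ∈ (quadField Qb (disc (x i j))).fixingSubgroup) → b ^ (2 ^ k) ∈ M i) → Equidistributed C x M := by
  have hF := index_of_numberField F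
  have hfin : ∀ j, (Γ j).FiniteIndex := fun j => (hΓ j).finiteIndex
  have : F.fixingSubgroup.FiniteIndex := ⟨hF⟩
  have hcore : (F.fixingSubgroup.normalCore).index ≠ 0 := Subgroup.FiniteIndex.index_ne_zero (H := F.fixingSubgroup.normalCore)
  obtain ⟨δ, hδ, h⟩ := refined hF (fun j => (hm j).1) hfin C hC hring
  refine ⟨δ, hδ, fun x hx hblock => ⟨?_, h x hx hblock⟩⟩
  refine h x hx hblock 0 F.fixingSubgroup.normalCore inferInstance hcore _ (fun _ => le_rfl) (fun i b hb _ => ?_)
  rw [pow_zero, pow_one]
  exact Subgroup.normalCore_le _ hb

end Pool.Agent.Results.MP_ad7a55_nt.SameFieldReduction
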